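import Pool.Agent.Q235.FE.Tw
import Pool.Agent.Q28.BP.ArtinE
import Pool.Agent.Q28.BP.PolyM

/-!
# The truncated multiplicities at `1/2 + iγ` of Artin L-functions, twisted by integers with few changed digits

Let `K/ℚ` be a finite Galois extension, `ρ` an `n`-dimensional representation of its group and `χ_d` the character of
`ℚ(√d)`.  The exponent

  `m_x(ρ ⊗ χ_d, γ) = log (∏_{p ≤ x} |det (1 - χ_d(p) p^{-1/2-iγ} ρ(Frob_p))|) / log log x`

(`5 ≤ p`, `p ∉ S`) is the truncated multiplicity of the zero `1/2 + iγ` of `L(s, ρ ⊗ χ_d)`, an Artin L-function of the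
extension `K(√d)`.  Let `m` arise from an ARBITRARY integer `N` with at most `K₀` digits by changing `r ≤ K₀/2` of its
digits.  Then for almost all choices of the positions, for `d = m` and `d = -m` and ALL `x` with
`X₀ ≤ x ≤ exp (c √r)`

1. `|m_x(ρ ⊗ χ_d, γ) + (1/2) (∑ Re (p^{-2iγ} tr ρ(Frob_p)²) / p) / log log x| ≤ 3 (log log x)^(-1/6)`, and `X₀` depends
  only on the base, on `n` and on the proportion of the exceptions, not on `K`, `ρ`, `γ`;
2. `|m_x(ρ ⊗ χ_d, 0) + ν(ρ)/2| ≤ ε`, `ν(ρ)` the indicator of Frobenius and Schur.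
-/

set_option autoImplicit false

namespace Pool.Agent.Results.MP_0f5a55_nt.FewDigitTwists

open Finset NumberField Filter
open Pool.Agent.Q235.FD (digit)
open Pool.Agent.Q235.FE (bad bad_mono)

/-- `g` is a Frobenius element at the prime `p`: for a homomorphism `φ` from the ring of integers to an
algebraic closure of `𝔽_p` (i.e. for a prime ideal above `p`), `φ (g x) = φ(x)^p`. -/
def IsFrobenius {K : Type} [Field K] [NumberField K] (p : ℕ) (g : Gal(K/ℚ)) : Prop :=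
  ∃ (_ : Fact p.Prime) (φ : 𝓞 K →+* AlgebraicClosure (ZMod p)), ∀ x : 𝓞 K, φ (g • x) = φ x ^ p

/-- `det (1 - χ_d(p) p^{-s} ρ(g))`; for odd `p ∤ d` the value `χ_d(p)` of the character of `ℚ(√d)` is the symbol of
Legendre, which is written as the symbol of Jacobi here. -/
noncomputable def factor {K : Type} [Field K] [NumberField K] {n : ℕ} (ρ : Gal(K/ℚ) →* Matrix (Fin n) (Fin n) ℂ)
    (d : ℤ) (s : ℂ) (p : ℕ) (g : Gal(K/ℚ)) : ℂ :=
  (1 - ((jacobiSym d p : ℂ) * (p : ℂ) ^ (-s)) • ρ g).det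

/-- The product over the primes `5 ≤ p ≤ x` not in `S`; `σ p` a Frobenius element. -/
noncomputable def product {K : Type} [Field K] [NumberField K] {n : ℕ} (ρ : Gal(K/ℚ) →* Matrix (Fin n) (Fin n) ℂ)
    (σ : ℕ → Gal(K/ℚ)) (S : Finset ℕ) (d : ℤ) (s : ℂ) (x : ℕ) : ℝ :=
  ∏ p ∈ (range (x + 1)).filter (fun p => p.Prime ∧ 5 ≤ p ∧ p ∉ S), ‖factor ρ d s p (σ p)‖

/-- The truncated multiplicity `m_x(ρ ⊗ χ_d, γ)`, the exponent `m` for which the product up to `x` at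
`s = 1/2 + iγ` is `(log x) ^ m`. -/
noncomputable def multAt {K : Type} [Field K] [NumberField K] {n : ℕ} (ρ : Gal(K/ℚ) →* Matrix (Fin n) (Fin n) ℂ)
    (σ : ℕ → Gal(K/ℚ)) (S : Finset ℕ) (d : ℤ) (γ : ℝ) (x : ℕ) : ℝ :=
  Real.log (product ρ σ S d (1 / 2 + γ * Complex.I) x) / Real.log (Real.log x)

/-- The sum of `Re (p^{-2iγ} tr ρ(Frob_p)²) / p` over the primes `5 ≤ p ≤ x` not in `S`. -/
noncomputable def squareSum {K : Type} [Field K] [NumberField K] {n : ℕ} (ρ : Gal(K/ℚ) →* Matrix (Fin n) (Fin n) ℂ)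
    (σ : ℕ → Gal(K/ℚ)) (S : Finset ℕ) (γ : ℝ) (x : ℕ) : ℝ :=
  ∑ p ∈ (range (x + 1)).filter (fun p => p.Prime ∧ 5 ≤ p ∧ p ∉ S),
    ((p : ℂ) ^ (-(2 * γ * Complex.I)) * (ρ (σ p) ^ 2).trace).re / p

/-- The indicator of Frobenius and Schur, the mean value of `tr ρ(g²)` (a real number; we take the real part). -/
noncomputable def indicator {K : Type} [Field K] [NumberField K] {n : ℕ}
    (ρ : Gal(K/ℚ) →* Matrix (Fin n) (Fin n) ℂ) : ℝ :=
  (∑ g : Gal(K/ℚ), (ρ (g ^ 2)).trace.re) / Nat.card Gal(K/ℚ)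

/-- the matrices `p^{-iγ} ρ(Frob_p)` -/
noncomputable def mat {K : Type} [Field K] [NumberField K] {n : ℕ} (ρ : Gal(K/ℚ) →* Matrix (Fin n) (Fin n) ℂ)
    (σ : ℕ → Gal(K/ℚ)) (γ : ℝ) (p : ℕ) : Matrix (Fin n) (Fin n) ℂ :=
  ((p : ℂ) ^ (-((1 / 2 + γ * Complex.I) - 1 / 2 : ℂ))) • ρ (σ p)

section

variable {K : Type} [Field K] [NumberField K] [IsGalois ℚ K] {n : ℕ}

theorem mat_eig (ρ : Gal(K/ℚ) →* Matrix (Fin n) (Fin n) ℂ) (σ : ℕ → Gal(K/ℚ)) (γ : ℝ) {p : ℕ}
    (hp : p.Prime) : Pool.Agent.Q28.BP.EigLe (mat ρ σ γ p) := by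
  have hm : Nat.card Gal(K/ℚ) ≠ 0 := Nat.card_pos.ne'
  refine Pool.Agent.Q28.BP.eigLe_smul (Pool.Agent.Q28.BP.eigLe_of_finite (ρ (σ p)) hm
    (by rw [← map_pow, pow_card_eq_one', map_one])) (Pool.Agent.Q28.BP.norm_cpow_le hp.pos ?_)
  simp

theorem factor_eq (ρ : Gal(K/ℚ) →* Matrix (Fin n) (Fin n) ℂ) (σ : ℕ → Gal(K/ℚ)) (γ : ℝ) (d : ℤ) {p : ℕ}
    (hp : p.Prime) : factor ρ d (1 / 2 + γ * Complex.I) p (σ p) =
      (1 - (((jacobiSym d p : ℝ) / Real.sqrt p : ℝ) : ℂ) • mat ρ σ γ p).det := by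
  unfold factor mat
  rw [smul_smul]
  congr 3
  rw [Pool.Agent.Q28.BP.cpow_half hp.pos]
  push_cast
  ring

theorem log_product (ρ : Gal(K/ℚ) →* Matrix (Fin n) (Fin n) ℂ) (σ : ℕ → Gal(K/ℚ)) (S : Finset ℕ)
    (d : ℤ) (γ : ℝ) (x : ℕ) :
    Real.log (product ρ σ S d (1 / 2 + γ * Complex.I) x) = ∑ p ∈ (range (x + 1)).filter Nat.Prime,
      Pool.Agent.Q28.BP.lq (S ∪ range 5) (mat ρ σ γ) d p := by
  unfold product
  rw [Real.log_prod]
  · rw [sum_filter, sum_filter]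
    refine sum_congr rfl fun p _ => ?_
    unfold Pool.Agent.Q28.BP.lq
    by_cases hp : p.Prime
    · by_cases hpS : p ∈ S ∪ range 5
      · rw [if_pos hp, if_pos hpS, if_neg]
        rintro ⟨_, h2, h3⟩
        rw [mem_union, mem_range] at hpS
        rcases hpS with h4 | h4
        · exact h3 h4
        · omega
      · rw [if_pos hp, if_neg hpS, if_pos]
        · rw [factor_eq ρ σ γ d hp]
        · rw [mem_union, mem_range, not_or] at hpS
          exact ⟨hp, by omega, hpS.1⟩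
    · rw [if_neg hp, if_neg fun h => hp h.1]
  · intro p hp
    obtain ⟨_, hp, h5, _⟩ := mem_filter.1 hp
    have : Fact p.Prime := ⟨hp⟩
    have hp0 : (0 : ℝ) < p := by exact_mod_cast hp.pos
    have h4 : (4 : ℝ) ≤ p := by exact_mod_cast (by omega : 4 ≤ p)
    have hs : 0 < Real.sqrt p := Real.sqrt_pos.2 hp0
    have hs2 : 2 ≤ Real.sqrt p := by
      rw [show (2 : ℝ) = Real.sqrt 4 by
        rw [show (4 : ℝ) = 2 ^ 2 by norm_num, Real.sqrt_sq (by norm_num)]]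
      exact Real.sqrt_le_sqrt h4
    have hz : |(jacobiSym d p : ℝ) / Real.sqrt p| ≤ 1 / 2 := by
      rw [Pool.Agent.Q28.BP.jac_ch, abs_div, abs_of_pos hs, div_le_div_iff₀ hs (by norm_num)]
      have := Pool.Agent.Q28.BP.ch_abs (d : ZMod p)
      nlinarith
    rw [factor_eq ρ σ γ d hp]
    exact (Pool.Agent.Q28.BP.local_q (mat_eig ρ σ γ hp) hz).1.ne'

theorem square_sum (ρ : Gal(K/ℚ) →* Matrix (Fin n) (Fin n) ℂ) (σ : ℕ → Gal(K/ℚ)) (S : Finset ℕ) (γ : ℝ) (x : ℕ) :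
    ∑ p ∈ (range (x + 1)).filter Nat.Prime, Pool.Agent.Q28.BP.ta (S ∪ range 5) (mat ρ σ γ) p / p = squareSum ρ σ S γ x := by
  unfold squareSum
  rw [sum_filter, sum_filter]
  refine sum_congr rfl fun p _ => ?_
  unfold Pool.Agent.Q28.BP.ta
  by_cases hp : p.Prime
  · by_cases hpS : p ∈ S ∪ range 5
    · rw [if_pos hp, if_pos hpS, if_neg, zero_div]
      rintro ⟨_, h2, h3⟩
      rw [mem_union, mem_range] at hpS
      rcases hpS with h4 | h4
      · exact h3 h4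
      · omega
    · rw [if_pos hp, if_neg hpS, if_pos]
      · congr 2
        unfold mat
        rw [smul_pow, Matrix.trace_smul, smul_eq_mul]
        congr 1
        rw [← Complex.cpow_nat_mul]
        congr 1
        push_cast
        ring
      · rw [mem_union, mem_range, not_or] at hpS
        exact ⟨hp, by omega, hpS.1⟩
  · rw [if_neg hp, if_neg fun h => hp h.1]

end

/-- **Truncated multiplicities.**  Let `β ≥ 2` be a base.  There is `c > 0` such that for all `n`: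

1. for every `η > 0` there is `X₀` such that for all finite Galois extensions `K/ℚ`, all `n`-dimensional representations
  `ρ` of `Gal(K/ℚ)` (with Frobenius elements `σ p` at the primes `p ∉ S`, `S` any finite set), all real `γ`, all integers
  `N` with at most `K₀` digits in base `β`, all `r ≤ K₀ / 2` and all prescribed new digits the following holds for all
  choices of `r` positions except for a proportion of at most `η`: for the number `m` obtained, all `x ≥ X₀` with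
  `log x ≤ c √r` and `d = ± m`,
  `|m_x(ρ ⊗ χ_d, γ) + (1/2) (∑ Re (p^{-2iγ} tr ρ(Frob_p)²) / p) / log log x| ≤ 3 (log log x)^(-1/6)`;
2. for all finite Galois extensions `K/ℚ`, all `n`-dimensional representations `ρ` of `Gal(K/ℚ)` and all `ε, η > 0` there
  is `X₀` such that for all these data `|m_x(ρ ⊗ χ_d, 0) + ν(ρ)/2| ≤ ε`, with the same proportion of exceptions. -/
theorem result (β : ℕ) (hβ : 2 ≤ β) : ∃ c : ℝ, 0 < c ∧ ∀ n : ℕ,
    (∀ η : ℝ, 0 < η → ∃ X₀ : ℕ, 16 ≤ X₀ ∧ ∀ (K : Type) [Field K] [NumberField K] [IsGalois ℚ K]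
      (ρ : Gal(K/ℚ) →* Matrix (Fin n) (Fin n) ℂ) (σ : ℕ → Gal(K/ℚ)) (S : Finset ℕ),
      (∀ p : ℕ, p.Prime → p ∉ S → IsFrobenius p (σ p)) → ∀ (γ : ℝ) (K₀ r N : ℕ) (f : ℕ → ℕ), 2 * r ≤ K₀ → N < β ^ K₀ →
      (∀ j, f j < β ∧ f j ≠ digit β j N) →
      (bad β K₀ r N f (fun m => ∀ x : ℕ, X₀ ≤ x → Real.log x ≤ c * Real.sqrt r → ∀ t : ℤ, (t = 1 ∨ t = -1) →
        |multAt ρ σ S (t * (m : ℤ)) γ x + 1 / 2 * squareSum ρ σ S γ x / Real.log (Real.log x)| ≤
          3 * Real.log (Real.log x) ^ (-(1 / 6) : ℝ)) : ℝ) ≤ η * (K₀.choose r : ℝ)) ∧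
    (∀ (K : Type) [Field K] [NumberField K] [IsGalois ℚ K]
      (ρ : Gal(K/ℚ) →* Matrix (Fin n) (Fin n) ℂ) (σ : ℕ → Gal(K/ℚ)) (S : Finset ℕ),
      (∀ p : ℕ, p.Prime → p ∉ S → IsFrobenius p (σ p)) → ∀ ε η : ℝ, 0 < ε → 0 < η → ∃ X₀ : ℕ, 16 ≤ X₀ ∧
      ∀ (K₀ r N : ℕ) (f : ℕ → ℕ), 2 * r ≤ K₀ → N < β ^ K₀ → (∀ j, f j < β ∧ f j ≠ digit β j N) →
      (bad β K₀ r N f (fun m => ∀ x : ℕ, X₀ ≤ x → Real.log x ≤ c * Real.sqrt r → ∀ t : ℤ, (t = 1 ∨ t = -1) →
        |multAt ρ σ S (t * (m : ℤ)) 0 x + indicator ρ / 2| ≤ ε) : ℝ) ≤ η * (K₀.choose r : ℝ)) := by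
  obtain ⟨c, hc, H⟩ := Pool.Agent.Q235.FE.matrix_twists β hβ
  have hL : ∀ x : ℕ, 16 ≤ x → 0 < Real.log (Real.log x) := by
    intro x hx
    have := Pool.Agent.Q28.BP.loglog_ge_one hx
    linarith
  refine ⟨c, hc, fun n => ⟨fun η hη => ?_, fun K _ _ _ ρ σ S hσ ε η hε hη => ?_⟩⟩
  · obtain ⟨X₀, hX₀, H⟩ := H n η hη
    refine ⟨X₀, hX₀, fun K _ _ _ ρ σ S _ γ K₀ r N f hrK hN hf => ?_⟩
    refine le_trans (Nat.cast_le.2 (bad_mono β K₀ r N f (fun m hm x hx hxr t ht => ?_)))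
      (H (S ∪ range 5) (mat ρ σ γ) (fun p hp _ => mat_eig ρ σ γ hp)
        (fun p hp => mem_union_right _ (mem_range.2 (by omega))) K₀ r N f hrK hN hf)
    have h1 := hm x hx hxr t ht
    have hl := hL x (hX₀.trans hx)
    rw [square_sum, ← log_product] at h1
    have e : multAt ρ σ S (t * (m : ℤ)) γ x + 1 / 2 * squareSum ρ σ S γ x / Real.log (Real.log x) =
        (Real.log (product ρ σ S (t * (m : ℤ)) (1 / 2 + γ * Complex.I) x) + 1 / 2 * squareSum ρ σ S γ x) /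
          Real.log (Real.log x) := by
      unfold multAt
      rw [add_div]
    rw [e, abs_div, abs_of_pos hl, div_le_iff₀ hl, mul_assoc]
    refine h1.trans (le_of_eq ?_)
    congr 1
    nth_rewrite 3 [← Real.rpow_one (Real.log (Real.log x))]
    rw [← Real.rpow_add hl]
    norm_num
  · obtain ⟨X₀, hX₀, H⟩ := H n η hη
    obtain ⟨X₁, hX₁, h1⟩ := Pool.Agent.Q235.FE.small_error (show 0 < ε / 2 by positivity)
    obtain ⟨X₂, h2⟩ := eventually_atTop.1 (Pool.Agent.Q28.BP.tau_loglog ρ σ (S ∪ range 5)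
      (fun p hp hpS => hσ p hp fun h => hpS (mem_union_left _ h)) (show 0 < ε by positivity))
    refine ⟨max X₀ (max X₁ X₂), hX₀.trans (le_max_left _ _), fun K₀ r N f hrK hN hf => ?_⟩
    refine le_trans (Nat.cast_le.2 (bad_mono β K₀ r N f (fun m hm x hx hxr t ht => ?_)))
      (H (S ∪ range 5) (mat ρ σ 0) (fun p hp _ => mat_eig ρ σ 0 hp)
        (fun p hp => mem_union_right _ (mem_range.2 (by omega))) K₀ r N f hrK hN hf)
    have h3 := hm x ((le_max_left _ _).trans hx) hxr t ht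
    have h4 := h1 x ((le_max_left _ _).trans ((le_max_right _ _).trans hx))
    have h5 := h2 x ((le_max_right _ _).trans ((le_max_right _ _).trans hx))
    have hl := hL x (hX₀.trans ((le_max_left _ _).trans hx))
    rw [← log_product] at h3
    have e1 : ∑ p ∈ (range (x + 1)).filter Nat.Prime, Pool.Agent.Q28.BP.ta (S ∪ range 5) (mat ρ σ 0) p / p =
        ∑ p ∈ (range (x + 1)).filter Nat.Prime, Pool.Agent.Q28.BP.tau (S ∪ range 5) (fun p => ρ (σ p)) p / p := by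
      refine sum_congr rfl fun p _ => ?_
      have e2 : mat ρ σ 0 p = ρ (σ p) := by
        unfold mat
        simp
      unfold Pool.Agent.Q28.BP.ta Pool.Agent.Q28.BP.tau
      rw [e2]
    rw [e1] at h3
    have e3 : multAt ρ σ S (t * (m : ℤ)) 0 x + indicator ρ / 2 =
        (Real.log (product ρ σ S (t * (m : ℤ)) (1 / 2 + (0 : ℝ) * Complex.I) x) +
          Pool.Agent.Q28.BP.fs ρ / 2 * Real.log (Real.log x)) / Real.log (Real.log x) := by
      unfold multAt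
      rw [add_div, mul_div_assoc, div_self hl.ne', mul_one]
      rfl
    rw [e3, abs_div, abs_of_pos hl, div_le_iff₀ hl]
    rw [abs_le] at h3 h5 ⊢
    constructor <;> linarith [h3.1, h3.2, h5.1, h5.2]

end Pool.Agent.Results.MP_0f5a55_nt.FewDigitTwists
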