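import Mathlib
import Pool.Agent.Q18.P.Height
import Pool.Agent.Q18.P.Artin

/-!
# Multiplicities of the critical zeros of Artin `L`-functions from Euler products on sparse windows

Let `ρ_1, …, ρ_m` be representations of a finite group `G` (e.g. the nontrivial irreducible representations of
`Gal(F/ℚ)`), `φ(v) ∈ G` a Frobenius element for every place `v ∉ S` of a number field `K` (e.g. `ℚ`), and `L_i` the Artin
`L`-function of `ρ_i` without the Euler factors at `S` (which has the same zeros on `Re s = 1/2` as the complete one),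
holomorphic of polynomial growth in a half plane `Re s > 1/2 - η` (for supersolvable `G` this is known). The multiplicity
of `γ` in the multiset of the problem (for the characters `χ_i = tr ρ_i`) is `∑_i ord_{1/2 + iγ} L_i`. For real `t` let

`P_t(y) = ∏_i ∏_{v ∉ S, q_v ≤ y} |det (1 - q_v^{-1/2-it} ρ_i(φ(v)))|`,
`P*_t(y) = exp (- ∑_i ∑_{v ∉ S, q_v^k ≤ y} Re (q_v^{-ikt} χ_i(φ(v)^k))/(k q_v^{k/2}))`.

Fix `0 < δ < 1`; the windows are `[Y^(1-δ), Y]`. `RH` means: no `L_i` has a zero with `Re s > 1/2`.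

1. For all real `t`, `κ`: RH and `∑_i ord_{1/2+it} L_i ≤ κ` ⟺ `∫ max (log P_t(y) - κ log log y, 0) dy/y ≤ B log Y` for
   some `B` and arbitrarily large `Y` (one sequence of windows, as sparse as we like) ⟺ for some `B` and all large `Y`.
2. RH and every `γ > 0` occurs at most once in the multiset (all critical zeros are simple and belong to one `χ_i` only)
   ⟺ for every `t > 0` the bound of 1. holds for some `κ < 2`, some `B` and arbitrarily large `Y` (all depending on `t`).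
3. If some `γ > 0` occurs at least twice, the bound of 1. for `t = γ` fails for ALL large `Y`, for every `κ < 2` and every
   `B`, whether RH holds or not.
4. RH and no `L_i` vanishes at `1/2 + it` ⟺ `∫ |log P_t(y)| dy/y ≤ B log Y` for some `B` and arbitrarily large `Y` ⟺ for
   some `B` and all large `Y`.
5. RH, and `γ` is a simple zero of exactly one `L_i` with `|(∏_i L_i)'(1/2 + iγ)| = A` ⟺ for each `ε > 0`
   `∫ |log (A P*_γ(y)/(e^γ₀ log y))| dy/y ≤ ε log Y` for arbitrarily large `Y` ⟺ for all large `Y`, `γ₀` Euler's constant.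
-/

set_option autoImplicit false

namespace Pool.Agent.Results.MP_0f5a55_nt.MultiplicityWindows

open Filter Topology Set Complex NumberField IsDedekindDomain MeasureTheory ComplexConjugate
open Pool.Agent.Q18.P (norm upTo MeanBound excess ratio eig eig_det eig_norm eig_trace NoZeros Holo Order IsLeading)

variable {K : Type} [Field K] [NumberField K] {G : Type} [Group G] [Finite G] {m : ℕ} {n : Fin m → ℕ}

/-- `det (1 - q_v^{-s} ρ(φ(v)))` -/
noncomputable def factor {n : ℕ} (φ : HeightOneSpectrum (𝓞 K) → G) (ρ : G →* Matrix (Fin n) (Fin n) ℂ)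
    (v : HeightOneSpectrum (𝓞 K)) (s : ℂ) : ℂ :=
  (1 - (norm v : ℂ) ^ (-s) • ρ (φ v)).det

/-- `L` is the Artin `L`-function of `ρ` without the Euler factors at `S`, holomorphic and of polynomial growth in a half
plane `Re s > 1/2 - η`. -/
structure IsArtin {n : ℕ} (S : Finset (HeightOneSpectrum (𝓞 K))) (φ : HeightOneSpectrum (𝓞 K) → G)
    (ρ : G →* Matrix (Fin n) (Fin n) ℂ) (L : ℂ → ℂ) : Prop where
  holo : Holo (1 / 2) L
  euler : ∀ s : ℂ, 1 < s.re → HasProd (fun v : {v : HeightOneSpectrum (𝓞 K) // v ∉ S} => (factor φ ρ v.1 s)⁻¹) (L s)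

/-- `P_t(y)` -/
noncomputable def product (S : Finset (HeightOneSpectrum (𝓞 K))) (φ : HeightOneSpectrum (𝓞 K) → G)
    (ρ : (i : Fin m) → G →* Matrix (Fin (n i)) (Fin (n i)) ℂ) (t y : ℝ) : ℝ :=
  ∏ i, ∏ᶠ v ∈ upTo S y, ‖factor φ (ρ i) v (1 / 2 + t * I)‖

/-- `P*_t(y)`, `k = p.2 + 1` -/
noncomputable def productStar (S : Finset (HeightOneSpectrum (𝓞 K))) (φ : HeightOneSpectrum (𝓞 K) → G)
    (ρ : (i : Fin m) → G →* Matrix (Fin (n i)) (Fin (n i)) ℂ) (t y : ℝ) : ℝ :=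
  ∏ i, Real.exp (-∑ᶠ (p : {v : HeightOneSpectrum (𝓞 K) // v ∉ S} × ℕ) (_ : (norm p.1.1 : ℝ) ^ (p.2 + 1) ≤ y),
    ((ρ i (φ p.1.1 ^ (p.2 + 1))).trace * ((norm p.1.1 : ℂ) ^ (-((t : ℂ) * I))) ^ (p.2 + 1)).re /
      (((p.2 : ℝ) + 1) * ((norm p.1.1 : ℝ) ^ (1 / 2 : ℝ)) ^ (p.2 + 1)))

/-- the Riemann hypothesis for all `L_i` -/
def RH (L : Fin m → ℂ → ℂ) : Prop := ∀ i, NoZeros (1 / 2) (L i)

/-- the multiplicity of `t` in the union of the multisets of the ordinates of the critical zeros is `e` -/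
def Mult (L : Fin m → ℂ → ℂ) (t : ℝ) (e : ℤ) : Prop :=
  ∃ w : Fin m → ℤ, (∀ i, meromorphicOrderAt (L i) (1 / 2 + t * I) = w i) ∧ ∑ i, w i = e

/-- **Multiplicities of the critical zeros of Artin `L`-functions from Euler products on sparse windows.** -/
theorem result (K : Type) [Field K] [NumberField K] (G : Type) [Group G] [Finite G] (m : ℕ) (n : Fin m → ℕ)
    (S : Finset (HeightOneSpectrum (𝓞 K))) (φ : HeightOneSpectrum (𝓞 K) → G)
    (ρ : (i : Fin m) → G →* Matrix (Fin (n i)) (Fin (n i)) ℂ) (L : Fin m → ℂ → ℂ) (hL : ∀ i, IsArtin S φ (ρ i) (L i))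
    (δ : ℝ) (h0 : 0 < δ) (h1 : δ < 1) :
    -- (1) upper bounds for the multiplicity
    (∀ t κ : ℝ, List.TFAE [
      RH L ∧ ∃ e : ℤ, Mult L t e ∧ (e : ℝ) ≤ κ,
      ∃ B : ℝ, ∃ᶠ Y : ℝ in atTop, MeanBound δ (excess (product S φ ρ t) κ) B Y,
      ∃ B : ℝ, ∀ᶠ Y : ℝ in atTop, MeanBound δ (excess (product S φ ρ t) κ) B Y]) ∧
    -- (2) all zeros are simple and not shared
    ((RH L ∧ ∀ t : ℝ, 0 < t → ∃ e : ℤ, Mult L t e ∧ e ≤ 1) ↔ ∀ t : ℝ, 0 < t → ∃ κ B : ℝ, κ < 2 ∧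
      ∃ᶠ Y : ℝ in atTop, MeanBound δ (excess (product S φ ρ t) κ) B Y) ∧
    -- (3) multiple or shared zeros
    (∀ (t : ℝ) (e : ℤ), Mult L t e → 2 ≤ e → ∀ κ B : ℝ, κ < 2 →
      ∀ᶠ Y : ℝ in atTop, ¬ MeanBound δ (excess (product S φ ρ t) κ) B Y) ∧
    -- (4) no zero at `1/2 + it`
    (∀ t : ℝ, List.TFAE [
      RH L ∧ ∀ i, L i (1 / 2 + t * I) ≠ 0,
      ∃ B : ℝ, ∃ᶠ Y : ℝ in atTop, MeanBound δ (fun y => |Real.log (product S φ ρ t y)|) B Y,
      ∃ B : ℝ, ∀ᶠ Y : ℝ in atTop, MeanBound δ (fun y => |Real.log (product S φ ρ t y)|) B Y]) ∧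
    -- (5) the derivative
    (∀ t A : ℝ, 0 < A → List.TFAE [
      RH L ∧ Mult L t 1 ∧ ∃ a : ℂ, Tendsto (fun s : ℂ => (∏ i, L i (1 / 2 + t * I + s)) / s) (𝓝[≠] 0) (𝓝 a) ∧ ‖a‖ = A,
      ∀ ε : ℝ, 0 < ε → ∃ᶠ Y : ℝ in atTop, MeanBound δ (fun y => |ratio (productStar S φ ρ t) A 1 y|) ε Y,
      ∀ ε : ℝ, 0 < ε → ∀ᶠ Y : ℝ in atTop, MeanBound δ (fun y => |ratio (productStar S φ ρ t) A 1 y|) ε Y]) := by
  classical
  have hc : (1 / 2 : ℝ) = (((0 : ℕ) : ℝ) + 1) / 2 := by norm_num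
  set r : (i : Fin m) → HeightOneSpectrum (𝓞 K) → Fin (n i) → ℂ := fun i v => eig (ρ i) (φ v) with hr
  have hb : ∀ i, Pool.Agent.Q18.P.Bdd 0 S (r i) := by
    intro i v _ j
    rw [hr]
    simp [eig_norm]
  have hB := Pool.Agent.Q18.P.cat_bdd hb
  have hH : Holo (1 / 2) (fun s => ∏ i, L i s) := Pool.Agent.Q18.P.holo_prod _ fun i _ => (hL i).holo
  have hE : Pool.Agent.Q18.P.Euler (1 / 2) S (Pool.Agent.Q18.P.cat r) (fun s => ∏ i, L i s) := by
    refine Pool.Agent.Q18.P.cat_euler fun i s hs => ?_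
    refine ((hL i).euler s (by linarith)).congr_fun fun v => ?_
    congr 1
    exact (eig_det (ρ i) (φ v.1) _).symm
  have hcast : ∀ t : ℝ, (((1 / 2 : ℝ) : ℝ) : ℂ) + (t : ℂ) * I = 1 / 2 + t * I := by
    intro t
    push_cast
    rfl
  -- the partial products
  have etw : ∀ (t : ℝ) (v : HeightOneSpectrum (𝓞 K)) (z : ℂ),
      ∏ j, (1 - Pool.Agent.Q18.P.twist t (Pool.Agent.Q18.P.cat r) v j * z) =
        ∏ i, ∏ j, (1 - r i v j * ((norm v : ℂ) ^ (-((t : ℂ) * I)) * z)) := by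
    intro t v z
    rw [← Pool.Agent.Q18.P.prod_cat]
    refine Finset.prod_congr rfl fun j _ => ?_
    unfold Pool.Agent.Q18.P.twist
    ring
  have e1 : ∀ t, product S φ ρ t = Pool.Agent.Q18.P.product (1 / 2) S
      (Pool.Agent.Q18.P.twist t (Pool.Agent.Q18.P.cat r)) := by
    intro t
    funext y
    unfold product Pool.Agent.Q18.P.product
    have e2 : ∀ f : HeightOneSpectrum (𝓞 K) → ℝ, ∏ᶠ v ∈ upTo S y, f v =
        ∏ v ∈ (Pool.Agent.Q18.P.upTo_finite S y).toFinset, f v :=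
      fun f => finprod_mem_eq_finite_toFinset_prod _ _
    rw [e2, Finset.prod_congr rfl fun i _ => e2 _, Finset.prod_comm]
    refine Finset.prod_congr rfl fun v _ => ?_
    rw [etw, norm_prod]
    refine Finset.prod_congr rfl fun i _ => ?_
    have hn : (norm v : ℂ) ≠ 0 := by
      have := Pool.Agent.Q18.P.norm_pos' v
      have h2 : (norm v : ℝ) ≠ 0 := this.ne'
      exact_mod_cast h2
    have e3 : (norm v : ℂ) ^ (-(1 / 2 + (t : ℂ) * I)) =
        (norm v : ℂ) ^ (-((t : ℂ) * I)) * (norm v : ℂ) ^ (-(((1 / 2 : ℝ)) : ℂ)) := by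
      rw [← Complex.cpow_add _ _ hn]
      congr 1
      push_cast
      ring
    unfold factor
    rw [e3, eig_det]
  have e4 : ∀ t, productStar S φ ρ t = Pool.Agent.Q18.P.productStar (1 / 2) S
      (Pool.Agent.Q18.P.twist t (Pool.Agent.Q18.P.cat r)) := by
    intro t
    funext y
    have e5 : Pool.Agent.Q18.P.twist t (Pool.Agent.Q18.P.cat r) =
        Pool.Agent.Q18.P.cat fun i => Pool.Agent.Q18.P.twist t (r i) := by
      funext v j
      rfl
    rw [e5, Pool.Agent.Q18.P.star_cat]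
    unfold productStar
    refine Finset.prod_congr rfl fun i _ => ?_
    unfold Pool.Agent.Q18.P.productStar
    congr 2
    refine finsum_congr fun p => finsum_congr fun _ => ?_
    have e6 : ∑ j, Pool.Agent.Q18.P.twist t (r i) p.1.1 j ^ (p.2 + 1) =
        (ρ i (φ p.1.1 ^ (p.2 + 1))).trace * ((norm p.1.1 : ℂ) ^ (-((t : ℂ) * I))) ^ (p.2 + 1) := by
      rw [← eig_trace, Finset.sum_mul]
      refine Finset.sum_congr rfl fun j _ => ?_
      unfold Pool.Agent.Q18.P.twist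
      rw [mul_pow]
    rw [e6]
  have laws := fun t : ℝ => Pool.Agent.Q18.P.laws_at hc hB hH hE h0 h1 t
  -- zeros and orders
  have hz : ∀ t : ℝ, NoZeros (1 / 2) (Pool.Agent.Q18.P.up t fun s => ∏ i, L i s) ↔ RH L := by
    intro t
    rw [Pool.Agent.Q18.P.up_noZeros, Pool.Agent.Q18.P.noZeros_prod]
    rfl
  have hup : ∀ t : ℝ, (Pool.Agent.Q18.P.up t fun s => ∏ i, L i s) = fun s => ∏ i, Pool.Agent.Q18.P.up t (L i) s :=
    fun t => rfl
  have hsum : ∀ (t : ℝ) (w : Fin m → ℤ), (∀ i, meromorphicOrderAt (L i) (1 / 2 + t * I) = w i) →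
      Order (1 / 2) (Pool.Agent.Q18.P.up t fun s => ∏ i, L i s) (∑ i, w i) := by
    intro t w hw
    rw [hup]
    refine Pool.Agent.Q18.P.order_prod Finset.univ (fun i _ => Pool.Agent.Q18.P.up_holo (hL i).holo) fun i _ => ?_
    rw [Pool.Agent.Q18.P.up_order, hcast]
    exact hw i
  have huniq : ∀ (t : ℝ) (e e' : ℤ), Order (1 / 2) (Pool.Agent.Q18.P.up t fun s => ∏ i, L i s) e →
      Order (1 / 2) (Pool.Agent.Q18.P.up t fun s => ∏ i, L i s) e' → e = e' := by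
    intro t e e' h2 h'
    unfold Pool.Agent.Q18.P.Order at h2 h'
    rw [h2] at h'
    exact_mod_cast h'
  have hfin : RH L → ∀ t : ℝ, ∃ w : Fin m → ℤ, ∀ i, meromorphicOrderAt (L i) (1 / 2 + t * I) = w i := by
    intro h2 t
    have : ∀ i, ∃ w : ℤ, Order (1 / 2) (Pool.Agent.Q18.P.up t (L i)) w := fun i =>
      Pool.Agent.Q18.P.order_finite (Pool.Agent.Q18.P.up_holo (hL i).holo) (Pool.Agent.Q18.P.up_noZeros.2 (h2 i))
    choose w hw using this
    refine ⟨w, fun i => ?_⟩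
    have := hw i
    rwa [Pool.Agent.Q18.P.up_order, hcast] at this
  have hM : RH L → ∀ (t : ℝ) (e : ℤ), Mult L t e ↔ Order (1 / 2) (Pool.Agent.Q18.P.up t fun s => ∏ i, L i s) e := by
    intro h2 t e
    constructor
    · rintro ⟨w, hw, rfl⟩
      exact hsum t w hw
    · intro h3
      obtain ⟨w, hw⟩ := hfin h2 t
      exact ⟨w, hw, huniq t _ _ (hsum t w hw) h3⟩
  have up1 : ∀ t κ : ℝ, List.TFAE [
      RH L ∧ ∃ e : ℤ, Mult L t e ∧ (e : ℝ) ≤ κ,
      ∃ B : ℝ, ∃ᶠ Y : ℝ in atTop, MeanBound δ (excess (product S φ ρ t) κ) B Y,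
      ∃ B : ℝ, ∀ᶠ Y : ℝ in atTop, MeanBound δ (excess (product S φ ρ t) κ) B Y] := by
    intro t κ
    rw [e1]
    have T := (laws t).upper κ
    have e3 : (NoZeros (1 / 2) (Pool.Agent.Q18.P.up t fun s => ∏ i, L i s) ∧
        ∃ e : ℤ, Order (1 / 2) (Pool.Agent.Q18.P.up t fun s => ∏ i, L i s) e ∧ (e : ℝ) ≤ κ) ↔
        (RH L ∧ ∃ e : ℤ, Mult L t e ∧ (e : ℝ) ≤ κ) := by
      rw [hz]
      refine and_congr_right fun h2 => exists_congr fun e => and_congr_left fun _ => (hM h2 t e).symm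
    rw [e3] at T
    exact T
  refine ⟨up1, ?_, fun t e he he2 κ B hκ => ?_, fun t => ?_, fun t A hA => ?_⟩
  · constructor
    · rintro ⟨h2, h3⟩ t ht
      obtain ⟨e, he, he1⟩ := h3 t ht
      have T : (RH L ∧ ∃ e : ℤ, Mult L t e ∧ (e : ℝ) ≤ 1) ↔
        ∃ B : ℝ, ∃ᶠ Y : ℝ in atTop, MeanBound δ (excess (product S φ ρ t) 1) B Y := (up1 t 1).out 0 1
      obtain ⟨B, hB'⟩ := T.1 ⟨h2, e, he, by exact_mod_cast he1⟩
      exact ⟨1, B, by norm_num, hB'⟩
    · intro h2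
      have key : ∀ t : ℝ, 0 < t → RH L ∧ ∃ e : ℤ, Mult L t e ∧ e ≤ 1 := by
        intro t ht
        obtain ⟨κ, B, hκ, hB'⟩ := h2 t ht
        have T : (RH L ∧ ∃ e : ℤ, Mult L t e ∧ (e : ℝ) ≤ κ) ↔
          ∃ B : ℝ, ∃ᶠ Y : ℝ in atTop, MeanBound δ (excess (product S φ ρ t) κ) B Y := (up1 t κ).out 0 1
        obtain ⟨h3, e, he, hle⟩ := T.2 ⟨B, hB'⟩
        have h4 : (e : ℝ) < 2 := lt_of_le_of_lt hle hκ
        have h5 : e < 2 := by exact_mod_cast h4
        exact ⟨h3, e, he, by omega⟩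
      exact ⟨(key 1 one_pos).1, fun t ht => (key t ht).2⟩
  · by_contra hne
    rw [Filter.not_eventually] at hne
    have hB' : ∃ᶠ Y : ℝ in atTop, MeanBound δ (excess (product S φ ρ t) κ) B Y := hne.mono fun Y hY => not_not.1 hY
    have T : (RH L ∧ ∃ e : ℤ, Mult L t e ∧ (e : ℝ) ≤ κ) ↔
      ∃ B : ℝ, ∃ᶠ Y : ℝ in atTop, MeanBound δ (excess (product S φ ρ t) κ) B Y := (up1 t κ).out 0 1
    obtain ⟨h3, e', he', hle⟩ := T.2 ⟨B, hB'⟩
    have h4 := huniq t e e' ((hM h3 t e).1 he) ((hM h3 t e').1 he')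
    have h5 : (e : ℝ) < 2 := by
      rw [h4]
      exact lt_of_le_of_lt hle hκ
    have h6 : e < 2 := by exact_mod_cast h5
    omega
  · rw [e1]
    have T := (laws t).nonvanish (Pool.Agent.Q18.P.up_holo hH)
    have e3 : (NoZeros (1 / 2) (Pool.Agent.Q18.P.up t fun s => ∏ i, L i s) ∧
        (Pool.Agent.Q18.P.up t fun s => ∏ i, L i s) ((1 / 2 : ℝ) : ℂ) ≠ 0) ↔
        (RH L ∧ ∀ i, L i (1 / 2 + t * I) ≠ 0) := by
      rw [hz]
      refine and_congr_right fun _ => ?_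
      have e5 : (Pool.Agent.Q18.P.up t fun s => ∏ i, L i s) ((1 / 2 : ℝ) : ℂ) = ∏ i, L i (1 / 2 + t * I) := by
        unfold Pool.Agent.Q18.P.up
        rw [add_comm, hcast]
      rw [e5, Finset.prod_ne_zero_iff]
      exact ⟨fun h i => h i (Finset.mem_univ i), fun h i _ => h i⟩
    rw [e3] at T
    exact T
  · rw [e4]
    have T := (laws t).lead 1 A hA
    have e3 : (NoZeros (1 / 2) (Pool.Agent.Q18.P.up t fun s => ∏ i, L i s) ∧
        ∃ a : ℂ, IsLeading (1 / 2) (Pool.Agent.Q18.P.up t fun s => ∏ i, L i s) 1 a ∧ ‖a‖ = A) ↔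
        (RH L ∧ Mult L t 1 ∧ ∃ a : ℂ, Tendsto (fun s : ℂ => (∏ i, L i (1 / 2 + t * I + s)) / s) (𝓝[≠] 0) (𝓝 a) ∧
          ‖a‖ = A) := by
      rw [hz]
      refine and_congr_right fun h2 => ?_
      rw [hM h2 t 1, ← exists_and_left]
      refine exists_congr fun a => ?_
      rw [← and_assoc]
      refine and_congr_left fun _ => ?_
      unfold Pool.Agent.Q18.P.IsLeading
      refine and_congr_right fun _ => ?_
      have hmap : map (fun s : ℂ => ((1 / 2 : ℝ) : ℂ) + s) (𝓝[≠] 0) = 𝓝[≠] ((1 / 2 : ℝ) : ℂ) := by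
        have h3 := (Homeomorph.addLeft ((1 / 2 : ℝ) : ℂ)).isEmbedding.map_nhdsWithin_eq ({0}ᶜ : Set ℂ) 0
        have h4 : (Homeomorph.addLeft ((1 / 2 : ℝ) : ℂ)) '' ({0}ᶜ : Set ℂ) = {((1 / 2 : ℝ) : ℂ)}ᶜ := by
          rw [Set.image_compl_eq (Homeomorph.bijective _), Set.image_singleton]
          simp
        rw [h4] at h3
        simpa using h3
      rw [← hmap, tendsto_map'_iff]
      refine tendsto_congr fun s => ?_
      show (∏ i, L i ((t : ℂ) * I + (((1 / 2 : ℝ) : ℂ) + s))) / (((1 / 2 : ℝ) : ℂ) + s - ((1 / 2 : ℝ) : ℂ)) ^ (1 : ℤ) = _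
      rw [add_sub_cancel_left, zpow_one]
      congr 1
      refine Finset.prod_congr rfl fun i _ => ?_
      congr 1
      rw [← hcast]
      ring
    rw [e3] at T
    simp only [Int.cast_one] at T
    exact T

end Pool.Agent.Results.MP_0f5a55_nt.MultiplicityWindows
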