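import Pool.Agent.Q28.BP.CharA

/-!
# The truncated multiplicities of an ordinate in the families `ρ ⊗ χ`, `χ` mod `q`

Linear independence of the multiset `Γ_F` of the problem implies that a given ordinate `γ > 0` is a zero of
at most one of the functions `L(s, χ, F/ℚ)`, `χ ∈ Irr(Gal(F/ℚ))`, and a simple one.  Let `K/ℚ` be a finite
Galois extension and `ρ` a representation of its group.  The field `F = K(ζ_q)` has the characters `ρ ⊗ χ`,
`χ` a Dirichlet character mod `q` (irreducible for irreducible `ρ`).  Consider the exponents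

  `m_x(ρ ⊗ χ, γ) = log (∏_{p ≤ x} |det (1 - χ(p) p^{-1/2 - iγ} ρ(Frob_p))|) / log log x`,

the truncated multiplicities of `1/2 + iγ` as a zero of `L(s, ρ ⊗ χ)`: under the deep form of the Riemann
hypothesis they tend to the multiplicity as `x → ∞` (up to a shift of `-ν/2` for `γ = 0` and self-dual
`ρ ⊗ χ`).  We prove, unconditionally, that

1. for `100 %` of the characters `χ` mod `q` the truncated multiplicities `m_x(ρ ⊗ χ, γ)` are `o(1)`
   simultaneously for all `x` between a constant and `q^(1/2)`;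
2. the average over `χ` of `|m_x(ρ ⊗ χ, γ)|` is `O((log log x)^(-1/2))` for `x < q^(1/2)`.

The constants depend on the dimension of `ρ` only: the statements are uniform in the field `K`, in `ρ`, in
the modulus `q` and in the ordinate `γ`.  So in this range an ordinate has a nonzero truncated multiplicity
for at most a proportion `o(1)` of the characters of `Gal(K(ζ_q)/ℚ)` of bounded dimension.
-/

set_option autoImplicit false

namespace Pool.Agent.Results.MP_0f5a55_nt.TruncatedMultiplicities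

open Finset NumberField

variable {K : Type} [Field K] [NumberField K] {n : ℕ}

/-- `g` is a Frobenius element at the prime `p`: for a homomorphism `φ` from the ring of integers to an
algebraic closure of `𝔽_p` (i.e. for a prime ideal above `p`), `φ (g x) = φ(x)^p`. -/
def IsFrobenius (p : ℕ) (g : Gal(K/ℚ)) : Prop :=
  ∃ (_ : Fact p.Prime) (φ : 𝓞 K →+* AlgebraicClosure (ZMod p)), ∀ x : 𝓞 K, φ (g • x) = φ x ^ p

/-- `det (1 - χ(p) p^{-s} ρ(g))`. -/
noncomputable def factor (ρ : Gal(K/ℚ) →* Matrix (Fin n) (Fin n) ℂ) {q : ℕ} (χ : DirichletCharacter ℂ q)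
    (s : ℂ) (p : ℕ) (g : Gal(K/ℚ)) : ℂ :=
  (1 - (χ (p : ZMod q) * (p : ℂ) ^ (-s)) • ρ g).det

/-- The product over the primes `5 ≤ p ≤ x` not in `S`; `σ p` a Frobenius element. -/
noncomputable def product (ρ : Gal(K/ℚ) →* Matrix (Fin n) (Fin n) ℂ) (σ : ℕ → Gal(K/ℚ)) (S : Finset ℕ)
    {q : ℕ} (χ : DirichletCharacter ℂ q) (s : ℂ) (x : ℕ) : ℝ :=
  ∏ p ∈ (range (x + 1)).filter (fun p => p.Prime ∧ 5 ≤ p ∧ p ∉ S), ‖factor ρ χ s p (σ p)‖

/-- The truncated multiplicity `m_x(ρ ⊗ χ, γ)`, the exponent `m` for which the product up to `x` at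
`s = 1/2 + iγ` is `(log x) ^ m`. -/
noncomputable def multAt (ρ : Gal(K/ℚ) →* Matrix (Fin n) (Fin n) ℂ) (σ : ℕ → Gal(K/ℚ)) (S : Finset ℕ)
    {q : ℕ} (χ : DirichletCharacter ℂ q) (γ : ℝ) (x : ℕ) : ℝ :=
  Real.log (product ρ σ S χ (1 / 2 + γ * Complex.I) x) / Real.log (Real.log x)

/-- the matrices `p^{-iγ} ρ(Frob_p)` -/
noncomputable def mat (ρ : Gal(K/ℚ) →* Matrix (Fin n) (Fin n) ℂ) (σ : ℕ → Gal(K/ℚ)) (γ : ℝ) (p : ℕ) :
    Matrix (Fin n) (Fin n) ℂ :=
  ((p : ℂ) ^ (-((1 / 2 + γ * Complex.I) - 1 / 2 : ℂ))) • ρ (σ p)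

theorem mat_eig (ρ : Gal(K/ℚ) →* Matrix (Fin n) (Fin n) ℂ) (σ : ℕ → Gal(K/ℚ)) (γ : ℝ) {p : ℕ}
    (hp : p.Prime) : Pool.Agent.Q28.BP.EigLe (mat ρ σ γ p) := by
  have hm : Nat.card Gal(K/ℚ) ≠ 0 := Nat.card_pos.ne'
  refine Pool.Agent.Q28.BP.eigLe_smul (Pool.Agent.Q28.BP.eigLe_of_finite (ρ (σ p)) hm
    (by rw [← map_pow, pow_card_eq_one', map_one])) (Pool.Agent.Q28.BP.norm_cpow_le hp.pos ?_)
  simp

theorem log_product (ρ : Gal(K/ℚ) →* Matrix (Fin n) (Fin n) ℂ) (σ : ℕ → Gal(K/ℚ)) (S : Finset ℕ)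
    {q : ℕ} (χ : DirichletCharacter ℂ q) (γ : ℝ) (x : ℕ) :
    Real.log (product ρ σ S χ (1 / 2 + γ * Complex.I) x) = ∑ p ∈ (range (x + 1)).filter Nat.Prime,
      Pool.Agent.Q28.BP.lc (S ∪ range 5) (mat ρ σ γ) (χ (p : ZMod q)) p := by
  rw [← Pool.Agent.Q28.BP.log_prod_lc (S := S ∪ range 5) (fun p hp _ => mat_eig ρ σ γ hp)
    (fun p hp => mem_union_right _ (mem_range.2 (by omega))) (fun p => χ (p : ZMod q))
    (fun p => χ.norm_le_one _)]
  congr 1
  unfold product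
  have hset : (range (x + 1)).filter (fun p => p.Prime ∧ 5 ≤ p ∧ p ∉ S) =
      (range (x + 1)).filter (fun p => p.Prime ∧ p ∉ S ∪ range 5) := by
    refine filter_congr fun p _ => ?_
    rw [mem_union, mem_range]
    constructor
    · rintro ⟨h1, h2, h3⟩
      exact ⟨h1, fun h => h.elim h3 (by omega)⟩
    · rintro ⟨h1, h2⟩
      exact ⟨h1, by by_contra h; exact h2 (Or.inr (by omega)), fun h => h2 (Or.inl h)⟩
  rw [hset]
  refine prod_congr rfl fun p hp => ?_
  have hp' := (mem_filter.1 hp).2.1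
  unfold factor mat
  rw [smul_smul, Pool.Agent.Q28.BP.cpow_half hp'.pos]
  congr 4
  ring

/-- **Truncated multiplicities.**  (1) For all `n` and `η > 0` there is `X₀` such that for all finite Galois
extensions `K/ℚ`, all `n`-dimensional representations `ρ` of `Gal(K/ℚ)` (with Frobenius elements `σ p` at the
primes `p ∉ S`, `S` any finite set), all `q ≥ 1` and all real `γ`, with at most `η φ(q)` exceptions all
characters `χ` mod `q` satisfy `|m_x(ρ ⊗ χ, γ)| ≤ 2 (log log x)^(-1/6)` for all `x ≥ X₀` with `x^2 < q`.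
(2) For all `n` there is `C` such that for all these data and all `x ≥ 16` with `x^2 < q` the mean of
`|m_x(ρ ⊗ χ, γ)|` over the characters `χ` mod `q` is at most `C (log log x)^(-1/2)`. -/
theorem result (n : ℕ) :
    (∀ η : ℝ, 0 < η → ∃ X₀ : ℕ, 16 ≤ X₀ ∧ ∀ (K : Type) [Field K] [NumberField K] [IsGalois ℚ K]
      (ρ : Gal(K/ℚ) →* Matrix (Fin n) (Fin n) ℂ) (σ : ℕ → Gal(K/ℚ)) (S : Finset ℕ),
      (∀ p : ℕ, p.Prime → p ∉ S → IsFrobenius p (σ p)) → ∀ (q : ℕ) [NeZero q] (γ : ℝ),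
      ∃ 𝓔 : Finset (DirichletCharacter ℂ q), (𝓔.card : ℝ) ≤ η * q.totient ∧
        ∀ χ : DirichletCharacter ℂ q, χ ∉ 𝓔 → ∀ x : ℕ, X₀ ≤ x → x ^ 2 < q →
          |multAt ρ σ S χ γ x| ≤ 2 * Real.log (Real.log x) ^ (-(1 / 6) : ℝ)) ∧
    ∃ C : ℝ, ∀ (K : Type) [Field K] [NumberField K] [IsGalois ℚ K]
      (ρ : Gal(K/ℚ) →* Matrix (Fin n) (Fin n) ℂ) (σ : ℕ → Gal(K/ℚ)) (S : Finset ℕ),
      (∀ p : ℕ, p.Prime → p ∉ S → IsFrobenius p (σ p)) → ∀ (q : ℕ) [NeZero q] (γ : ℝ) (x : ℕ),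
      16 ≤ x → x ^ 2 < q → (∑ χ : DirichletCharacter ℂ q, |multAt ρ σ S χ γ x|) / q.totient ≤
        C * Real.log (Real.log x) ^ (-(1 / 2) : ℝ) := by
  have hL : ∀ x : ℕ, 16 ≤ x → 0 < Real.log (Real.log x) := by
    intro x hx
    have := Pool.Agent.Q28.BP.loglog_ge_one hx
    linarith
  constructor
  · intro η hη
    obtain ⟨X₀, hX₀, H⟩ := Pool.Agent.Q28.BP.char_all n hη
    refine ⟨X₀, hX₀, fun K _ _ _ ρ σ S _ q _ γ => ?_⟩
    obtain ⟨E, hEc, HE⟩ := H (S ∪ range 5) (mat ρ σ γ) (fun p hp _ => mat_eig ρ σ γ hp)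
      (fun p hp => mem_union_right _ (mem_range.2 (by omega))) q
    refine ⟨E, hEc, fun χ hχ x hx hxq => ?_⟩
    have hl := hL x (hX₀.trans hx)
    have h1 := HE χ hχ x hx hxq
    unfold multAt
    rw [log_product, abs_div, abs_of_pos hl, div_le_iff₀ hl, mul_assoc]
    refine h1.trans (le_of_eq ?_)
    congr 1
    nth_rewrite 3 [← Real.rpow_one (Real.log (Real.log x))]
    rw [← Real.rpow_add hl]
    norm_num
  · obtain ⟨C, hC, H⟩ := Pool.Agent.Q28.BP.char_mean n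
    refine ⟨C, fun K _ _ _ ρ σ S _ q _ γ x hx hxq => ?_⟩
    have hl := hL x hx
    have h1 := H (S ∪ range 5) (mat ρ σ γ) (fun p hp _ => mat_eig ρ σ γ hp)
      (fun p hp => mem_union_right _ (mem_range.2 (by omega))) q x hx hxq
    have h2 : ∑ χ : DirichletCharacter ℂ q, |multAt ρ σ S χ γ x| = (∑ χ : DirichletCharacter ℂ q,
        |∑ p ∈ (range (x + 1)).filter Nat.Prime,
          Pool.Agent.Q28.BP.lc (S ∪ range 5) (mat ρ σ γ) (χ (p : ZMod q)) p|) /
            Real.log (Real.log x) := by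
      rw [sum_div]
      refine sum_congr rfl fun χ _ => ?_
      unfold multAt
      rw [log_product, abs_div, abs_of_pos hl]
    have h3 : (0 : ℝ) < q.totient := by exact_mod_cast Nat.totient_pos.2 (NeZero.pos q)
    rw [h2, div_le_iff₀ h3, div_le_iff₀ hl]
    refine h1.trans (le_of_eq ?_)
    have e : Real.log (Real.log x) ^ (1 / 2 : ℝ) =
        Real.log (Real.log x) ^ (-(1 / 2) : ℝ) * Real.log (Real.log x) := by
      nth_rewrite 3 [← Real.rpow_one (Real.log (Real.log x))]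
      rw [← Real.rpow_add hl]
      norm_num
    rw [e]
    ring

end Pool.Agent.Results.MP_0f5a55_nt.TruncatedMultiplicities
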